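import Mathlib
import Pool.Prelude.Def_F_b1b78ff3
import Pool.Agent.H391R2.WrGrp

/-!
# Fixed fields of point stabilizers in infinite products of wreath products

`L` is a Galois extension of `ℚ` with group `∏ G i ≀ S_(n i)`; `F` is the fixed field of the
subgroup of all elements fixing the point `z i` in every component.
-/

set_option autoImplicit false

namespace Pool.Agent.R70.IG

open Pool.Agent.H391R2 Nfff32c05 IntermediateField

section

variable {k L : Type} [Field k] [Field L] [Algebra k L] {ι : Type} {G : ι → Type} [∀ i, Group (G i)]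
  {n : ι → ℕ} (e : (L ≃ₐ[k] L) ≃* ∀ i, Wr (G i) (n i)) (z : ∀ i, Fin (n i))

/-- The elements fixing the point `z` . -/
def St (G : Type) [Group G] (n : ℕ) (z : Fin n) : Subgroup (Wr G n) where
  carrier := {x | x.right z = z}
  mul_mem' := by
    intro a b ha hb
    change (a * b).right z = z
    rw [wr_mul_right, Equiv.Perm.mul_apply]
    have h1 : b.right z = z := hb
    have h2 : a.right z = z := ha
    rw [h1, h2]
  one_mem' := rfl
  inv_mem' := by
    intro a ha
    change (a⁻¹).right z = z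
    rw [SemidirectProduct.inv_right]
    have h2 : a.right z = z := ha
    exact Equiv.Perm.inv_eq_iff_eq.2 h2.symm

theorem mem_St {G : Type} [Group G] {n : ℕ} {z : Fin n} {x : Wr G n} :
    x ∈ St G n z ↔ x.right z = z := Iff.rfl

/-- The value at the fixed point. -/
def val (G : Type) [Group G] (n : ℕ) (z : Fin n) : St G n z →* G where
  toFun x := x.1.left z
  map_one' := rfl
  map_mul' := by
    intro a b
    change (a.1 * b.1).left z = _
    rw [wr_mul_left]
    have h2 : a.1.right z = z := a.2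
    have h3 : a.1.right⁻¹ z = z := Equiv.Perm.inv_eq_iff_eq.2 h2.symm
    rw [h3]

/-- The stabilizer of all the points. -/
def U : Subgroup (L ≃ₐ[k] L) where
  carrier := {s | ∀ i, e s i ∈ St (G i) (n i) (z i)}
  mul_mem' := by
    intro a b ha hb i
    rw [map_mul]
    exact mul_mem (ha i) (hb i)
  one_mem' := by
    intro i
    rw [map_one]
    exact one_mem _
  inv_mem' := by
    intro a ha i
    rw [map_inv]
    exact inv_mem (ha i)

theorem mem_U {s : L ≃ₐ[k] L} : s ∈ U e z ↔ ∀ i, e s i ∈ St (G i) (n i) (z i) := Iff.rfl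

theorem open_pre (he : ∀ i, IsOpen {s : L ≃ₐ[k] L | e s i = 1}) (i : ι)
    (C : Set (Wr (G i) (n i))) : IsOpen {s : L ≃ₐ[k] L | e s i ∈ C} := by
  rw [isOpen_iff_forall_mem_open]
  intro s hs
  refine ⟨(fun t => s⁻¹ * t) ⁻¹' {t | e t i = 1}, ?_, (he i).preimage (continuous_const_mul _), ?_⟩
  · intro t ht
    have h1 : e (s⁻¹ * t) i = 1 := ht
    rw [map_mul, map_inv, Pi.mul_apply, Pi.inv_apply, inv_mul_eq_one] at h1
    change e t i ∈ C
    rw [← h1]
    exact hs
  · change e (s⁻¹ * s) i = 1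
    rw [inv_mul_cancel, map_one]
    rfl

theorem closed_pre (he : ∀ i, IsOpen {s : L ≃ₐ[k] L | e s i = 1}) (i : ι)
    (C : Set (Wr (G i) (n i))) : IsClosed {s : L ≃ₐ[k] L | e s i ∈ C} := by
  rw [← isOpen_compl_iff]
  exact open_pre e he i Cᶜ

theorem closed_U (he : ∀ i, IsOpen {s : L ≃ₐ[k] L | e s i = 1}) :
    IsClosed (U e z : Set (L ≃ₐ[k] L)) := by
  have h1 : (U e z : Set (L ≃ₐ[k] L)) =
      ⋂ i, {s : L ≃ₐ[k] L | e s i ∈ (St (G i) (n i) (z i) : Set (Wr (G i) (n i)))} := by
    ext s
    simp only [Set.mem_iInter]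
    exact Iff.rfl
  rw [h1]
  exact isClosed_iInter fun i => closed_pre e he i _

/-- The fixed field. -/
def FF : IntermediateField k L := fixedField (U e z)

theorem fix_FF [IsGalois k L] (he : ∀ i, IsOpen {s : L ≃ₐ[k] L | e s i = 1}) :
    (FF e z).fixingSubgroup = U e z :=
  InfiniteGalois.fixingSubgroup_fixedField ⟨U e z, closed_U e z he⟩

/-! ### Degrees -/

/-- An open subgroup contains almost all the factors. -/
theorem open_contains [IsGalois k L] (he : ∀ i, IsOpen {s : L ≃ₐ[k] L | e s i = 1})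
    (V : Subgroup (L ≃ₐ[k] L)) (hV : IsOpen (V : Set (L ≃ₐ[k] L))) :
    ∃ T : Finset ι, ∀ s : L ≃ₐ[k] L, (∀ i ∈ T, e s i = 1) → s ∈ V := by
  classical
  have hc : IsCompact ((V : Set (L ≃ₐ[k] L))ᶜ) := hV.isClosed_compl.isCompact
  have h1 : (V : Set (L ≃ₐ[k] L))ᶜ ∩ ⋂ i, {s : L ≃ₐ[k] L | e s i ∈ ({1} : Set (Wr (G i) (n i)))} =
      ∅ := by
    rw [Set.eq_empty_iff_forall_notMem]
    rintro s ⟨hs, hs2⟩
    rw [Set.mem_iInter] at hs2
    have h2 : e s = 1 := funext fun i => hs2 i
    have h3 : s = 1 := e.injective (by rw [h2, map_one])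
    exact hs (h3 ▸ V.one_mem)
  obtain ⟨T, hT⟩ := hc.elim_finite_subfamily_closed _ (fun i => closed_pre e he i _) h1
  refine ⟨T, fun s hs => ?_⟩
  by_contra hsV
  have h2 : s ∈ (V : Set (L ≃ₐ[k] L))ᶜ ∩
      ⋂ i ∈ T, {s : L ≃ₐ[k] L | e s i ∈ ({1} : Set (Wr (G i) (n i)))} :=
    ⟨hsV, by
      rw [Set.mem_iInter₂]
      intro i hi
      exact hs i hi⟩
  rw [hT] at h2
  exact h2

/-- An open subgroup which contains `U` contains the stabilizer of finitely many points. -/
theorem open_contains' [IsGalois k L] (he : ∀ i, IsOpen {s : L ≃ₐ[k] L | e s i = 1})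
    (V : Subgroup (L ≃ₐ[k] L)) (hV : IsOpen (V : Set (L ≃ₐ[k] L))) (hUV : U e z ≤ V) :
    ∃ T : Finset ι, ∀ s : L ≃ₐ[k] L, (∀ i ∈ T, e s i ∈ St (G i) (n i) (z i)) → s ∈ V := by
  classical
  obtain ⟨T, hT⟩ := open_contains e he V hV
  refine ⟨T, fun s hs => ?_⟩
  set y : ∀ i, Wr (G i) (n i) := fun i => if i ∈ T then e s i else 1 with hy
  have h1 : e.symm y ∈ U e z := by
    rw [mem_U]
    intro i
    rw [MulEquiv.apply_symm_apply, hy]
    by_cases hi : i ∈ T
    · simp only [hi, if_true]
      exact hs i hi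
    · simp only [hi, if_false]
      exact one_mem _
  have h2 : (e.symm y)⁻¹ * s ∈ V := by
    apply hT
    intro i hi
    rw [map_mul, map_inv, MulEquiv.apply_symm_apply, Pi.mul_apply, Pi.inv_apply, hy]
    simp only [hi, if_true]
    exact inv_mul_cancel _
  have h3 := V.mul_mem (hUV h1) h2
  rwa [mul_inv_cancel_left] at h3

/-- The action on the points. -/
@[reducible] def act (T : Finset ι) : MulAction (L ≃ₐ[k] L) (∀ i : T, Fin (n i)) where
  smul s x i := (e s i).right (x i)
  one_smul x := by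
    funext i
    change (e 1 i).right (x i) = x i
    rw [map_one]
    rfl
  mul_smul s t x := by
    funext i
    change (e (s * t) i).right (x i) = (e s i).right ((e t i).right (x i))
    rw [map_mul, Pi.mul_apply, wr_mul_right, Equiv.Perm.mul_apply]

theorem index_stab (T : Finset ι) (W : Subgroup (L ≃ₐ[k] L))
    (hW : ∀ s, s ∈ W ↔ ∀ i ∈ T, e s i ∈ St (G i) (n i) (z i)) :
    W.index = ∏ i ∈ T, n i := by
  classical
  let _ := act (G := G) e T
  have htr : MulAction.IsPretransitive (L ≃ₐ[k] L) (∀ i : T, Fin (n i)) := by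
    refine ⟨fun x y => ?_⟩
    let w : ∀ i, Wr (G i) (n i) := fun i =>
      if h : i ∈ T then SemidirectProduct.inr (Equiv.swap (x ⟨i, h⟩) (y ⟨i, h⟩)) else 1
    refine ⟨e.symm w, ?_⟩
    funext i
    change (e (e.symm w) i).right (x i) = y i
    rw [MulEquiv.apply_symm_apply]
    have h1 : w i = SemidirectProduct.inr (Equiv.swap (x i) (y i)) := by
      simp only [w, i.2, dif_pos]
    rw [h1, SemidirectProduct.right_inr, Equiv.swap_apply_left]
  have h1 : W = MulAction.stabilizer (L ≃ₐ[k] L) (fun i : T => z i) := by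
    ext s
    rw [hW, MulAction.mem_stabilizer_iff]
    constructor
    · intro h
      funext i
      exact h i i.2
    · intro h i hi
      exact congrFun h ⟨i, hi⟩
  rw [h1, MulAction.index_stabilizer_of_transitive, Nat.card_pi]
  simp only [Nat.card_eq_fintype_card, Fintype.card_fin]
  exact Finset.prod_coe_sort T n

theorem degree_FF [IsGalois k L] (he : ∀ i, IsOpen {s : L ≃ₐ[k] L | e s i = 1})
    (E : IntermediateField k (FF e z)) [FiniteDimensional k E] :
    ∃ T : Finset ι, Module.finrank k E ∣ ∏ i ∈ T, n i := by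
  have h1 : Module.finrank k (lift E) = Module.finrank k E :=
    ((liftAlgEquiv E).toLinearEquiv.finrank_eq).symm
  have hfd : FiniteDimensional k (lift E) := (liftAlgEquiv E).toLinearEquiv.finiteDimensional
  have h2 : U e z ≤ (lift E).fixingSubgroup := by
    rw [← fix_FF e z he]
    exact fixingSubgroup_le (lift_le E)
  have h3 : IsOpen ((lift E).fixingSubgroup : Set (L ≃ₐ[k] L)) :=
    IntermediateField.fixingSubgroup_isOpen (lift E)
  obtain ⟨T, hT⟩ := open_contains' e z he _ h3 h2
  refine ⟨T, ?_⟩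
  let W : Subgroup (L ≃ₐ[k] L) :=
    { carrier := {s | ∀ i ∈ T, e s i ∈ St (G i) (n i) (z i)}
      mul_mem' := by
        intro a b ha hb i hi
        rw [map_mul]
        exact mul_mem (ha i hi) (hb i hi)
      one_mem' := by
        intro i _
        rw [map_one]
        exact one_mem _
      inv_mem' := by
        intro a ha i hi
        rw [map_inv]
        exact inv_mem (ha i hi) }
  have h4 : W ≤ (lift E).fixingSubgroup := fun s hs => hT s hs
  have h5 := Subgroup.index_dvd_of_le h4
  rw [index_stab e z T W (fun s => Iff.rfl)] at h5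
  rw [← h1, finrank_eq_fixingSubgroup_index]
  exact h5

end

end Pool.Agent.R70.IG
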