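import Mathlib
import Pool.Agent.R70.IG.Base

/-!
# Realizing products over the fixed field of the point stabilizers
-/

set_option autoImplicit false

namespace Pool.Agent.R70.IG

open Pool.Agent.H391R2 Nfff32c05 IntermediateField

/-- `P` is the Galois group over `K` of an intermediate field of `L / K`. -/
def RealIn (K L : Type) [Field K] [Field L] [Algebra K L] (P : Type) [Group P] : Prop :=
  ∃ M : IntermediateField K L, IsGalois K M ∧ Nonempty ((M ≃ₐ[K] M) ≃* P)

theorem real_of_hom {K L : Type} [Field K] [Field L] [Algebra K L] [IsGalois K L] {P : Type}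
    [Group P] (w : (L ≃ₐ[K] L) →* P) (hs : Function.Surjective w)
    (hc : IsClosed (w.ker : Set (L ≃ₐ[K] L))) : RealIn K L P := by
  let H : ClosedSubgroup (L ≃ₐ[K] L) := ⟨w.ker, hc⟩
  have hn : H.Normal := by
    change w.ker.Normal
    infer_instance
  have h1 : (fixedField w.ker).fixingSubgroup = w.ker := InfiniteGalois.fixingSubgroup_fixedField H
  have h2 : IsGalois K (fixedField w.ker) := by
    rw [← InfiniteGalois.normal_iff_isGalois, h1]
    infer_instance
  exact ⟨fixedField w.ker, h2, ⟨((QuotientGroup.quotientKerEquivOfSurjective w hs).symm.trans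
    (InfiniteGalois.normalAutEquivQuotient H)).symm⟩⟩

open scoped Topology in
theorem cont_res {k L : Type} [Field k] [Field L] [Algebra k L] [Algebra.IsAlgebraic k L]
    (K : IntermediateField k L) :
    Continuous (AlgEquiv.restrictScalarsHom k : (L ≃ₐ[K] L) →* (L ≃ₐ[k] L)) := by
  have : Algebra.IsAlgebraic K L := Algebra.IsAlgebraic.tower_top (K := k) K
  have : Algebra.IsIntegral K L := Algebra.IsAlgebraic.isIntegral
  apply continuous_of_continuousAt_one
  intro s hs
  rw [map_one, krullTopology_mem_nhds_one_iff] at hs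
  obtain ⟨E, hE, hEs⟩ := hs
  rw [Filter.mem_map]
  let b := Module.finBasis k E
  have h1 : IsOpen (⋂ i, (MulAction.stabilizer (L ≃ₐ[K] L) ((b i : E) : L) : Set (L ≃ₐ[K] L))) :=
    isOpen_iInter_of_finite fun i => stabilizer_isOpen_of_isIntegral _
  refine Filter.mem_of_superset (h1.mem_nhds ?_) ?_
  · rw [Set.mem_iInter]
    intro i
    exact one_mem _
  · intro τ hτ
    rw [Set.mem_iInter] at hτ
    apply hEs
    have h2 : ((τ.restrictScalars k).toLinearMap).comp E.val.toLinearMap = E.val.toLinearMap := by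
      apply b.ext
      intro i
      exact hτ i
    rw [SetLike.mem_coe, IntermediateField.mem_fixingSubgroup_iff]
    intro x hx
    exact LinearMap.congr_fun h2 ⟨x, hx⟩

theorem exists_ext {ι J : Type} {G : ι → Type} [∀ i, Group (G i)] (idx : J → ι)
    (hinj : Function.Injective idx) (a : ∀ j, G (idx j)) :
    ∃ g : ∀ i, G i, ∀ j, g (idx j) = a j := by
  have h1 : ∀ i, ∃ y : G i, ∀ (j : J) (h : idx j = i), h ▸ a j = y := by
    intro i
    by_cases hi : ∃ j, idx j = i
    · obtain ⟨j₀, rfl⟩ := hi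
      refine ⟨a j₀, fun j h => ?_⟩
      obtain rfl := hinj h
      rfl
    · exact ⟨1, fun j h => absurd ⟨j, h⟩ hi⟩
  choose g hg using h1
  exact ⟨g, fun j => (hg (idx j) j rfl).symm⟩

section

variable {k L : Type} [Field k] [Field L] [Algebra k L] {ι : Type} {G : ι → Type}
  [∀ i, Group (G i)]
  {n : ι → ℕ} (e : (L ≃ₐ[k] L) ≃* ∀ i, Wr (G i) (n i)) (z : ∀ i, Fin (n i))

/-- The component of an element of `U`. -/
def evU (i : ι) : U e z →* St (G i) (n i) (z i) where
  toFun s := ⟨e s.1 i, s.2 i⟩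
  map_one' := by
    apply Subtype.ext
    change e 1 i = 1
    rw [map_one]
    rfl
  map_mul' := by
    intro a b
    apply Subtype.ext
    change e (a.1 * b.1) i = e a.1 i * e b.1 i
    rw [map_mul]
    rfl

/-- The values at the fixed points. -/
def wU {J : Type} (idx : J → ι) {H : J → Type} [∀ j, Group (H j)] (θ : ∀ j, G (idx j) ≃* H j) :
    U e z →* ∀ j, H j :=
  MonoidHom.pi fun j => (θ j).toMonoidHom.comp ((val _ _ _).comp (evU e z (idx j)))

theorem wU_apply {J : Type} (idx : J → ι) {H : J → Type} [∀ j, Group (H j)]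
    (θ : ∀ j, G (idx j) ≃* H j) (s : U e z) (j : J) :
    wU e z idx θ s j = θ j ((e s.1 (idx j)).left (z (idx j))) := rfl

theorem wU_surj {J : Type} (idx : J → ι) (hinj : Function.Injective idx) {H : J → Type}
    [∀ j, Group (H j)] (θ : ∀ j, G (idx j) ≃* H j) : Function.Surjective (wU e z idx θ) := by
  classical
  intro h
  obtain ⟨g, hg⟩ := exists_ext (G := G) idx hinj (fun j => (θ j).symm (h j))
  let x : ∀ i, Wr (G i) (n i) := fun i => SemidirectProduct.inl (Pi.mulSingle (z i) (g i))
  have hx : e.symm x ∈ U e z := by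
    rw [mem_U]
    intro i
    rw [MulEquiv.apply_symm_apply]
    rfl
  refine ⟨⟨e.symm x, hx⟩, ?_⟩
  funext j
  rw [wU_apply]
  change θ j ((e (e.symm x) (idx j)).left (z (idx j))) = h j
  rw [MulEquiv.apply_symm_apply]
  change θ j ((Pi.mulSingle (z (idx j)) (g (idx j)) : Fin (n (idx j)) → G (idx j))
    (z (idx j))) = h j
  rw [Pi.mulSingle_eq_same, hg, MulEquiv.apply_symm_apply]

theorem real_FF [IsGalois k L] (he : ∀ i, IsOpen {s : L ≃ₐ[k] L | e s i = 1}) {J : Type}
    (idx : J → ι) (hinj : Function.Injective idx) {H : J → Type}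
    [∀ j, Group (H j)] (θ : ∀ j, G (idx j) ≃* H j) : RealIn (FF e z) L (∀ j, H j) := by
  let f1 : (L ≃ₐ[FF e z] L) ≃* (FF e z).fixingSubgroup := (fixingSubgroupEquiv (FF e z)).symm
  let f2 : (FF e z).fixingSubgroup ≃* U e z := MulEquiv.subgroupCongr (fix_FF e z he)
  let f : (L ≃ₐ[FF e z] L) ≃* U e z := f1.trans f2
  have hf : ∀ τ : L ≃ₐ[FF e z] L, (f τ).1 = AlgEquiv.restrictScalarsHom k τ := fun τ => rfl
  let w : (L ≃ₐ[FF e z] L) →* ∀ j, H j := (wU e z idx θ).comp f.toMonoidHom
  have hs : Function.Surjective w := (wU_surj e z idx hinj θ).comp f.surjective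
  refine real_of_hom w hs ?_
  have h1 : (w.ker : Set (L ≃ₐ[FF e z] L)) = ⋂ j, (AlgEquiv.restrictScalarsHom k :
      (L ≃ₐ[FF e z] L) →* (L ≃ₐ[k] L)) ⁻¹' {s : L ≃ₐ[k] L | e s (idx j) ∈
        ({x | x.left (z (idx j)) = 1} : Set (Wr (G (idx j)) (n (idx j))))} := by
    ext τ
    rw [Set.mem_iInter, SetLike.mem_coe, MonoidHom.mem_ker, funext_iff]
    refine forall_congr' fun j => ?_
    change θ j ((e (f τ).1 (idx j)).left (z (idx j))) = 1 ↔
      (e (AlgEquiv.restrictScalarsHom k τ) (idx j)).left (z (idx j)) = 1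
    rw [hf, MulEquiv.map_eq_one_iff]
  rw [h1]
  exact isClosed_iInter fun j => (closed_pre e he (idx j) _).preimage (cont_res (FF e z))

end

end Pool.Agent.R70.IG
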