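import Mathlib
import Pool.Agent.R70.IG.Real

/-!
# Local degrees, groups on finite types, sparse choices
-/

set_option autoImplicit false

namespace Pool.Agent.R70.IG

open Pool.Agent.H391R2 Nfff32c05 IntermediateField

/-- The fixed field of a normal subgroup of finite index is finite. -/
theorem finite_fixed {K Ω : Type} [Field K] [Field Ω] [Algebra K Ω] [IsGalois K Ω]
    (H : Subgroup (Ω ≃ₐ[K] Ω)) [H.FiniteIndex] : FiniteDimensional K (fixedField H) := by
  have h1 : H ≤ (fixedField H).fixingSubgroup := (le_iff_le H (fixedField H)).1 le_rfl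
  have h2 : (fixedField H).fixingSubgroup.FiniteIndex := Subgroup.finiteIndex_of_le h1
  have h3 : IsClosed ((fixedField H).fixingSubgroup : Set (Ω ≃ₐ[K] Ω)) :=
    InfiniteGalois.fixingSubgroup_isClosed _
  have h4 : IsOpen ((fixedField H).fixingSubgroup : Set (Ω ≃ₐ[K] Ω)) :=
    Subgroup.isOpen_of_isClosed_of_finiteIndex _ h3
  exact (InfiniteGalois.isOpen_iff_finite _).1 h4

section

attribute [-instance] DivisionRing.toRatAlgebra

theorem finite_local {L : Type} [Field L] [Algebra ℚ L] [IsGalois ℚ L] {ι : Type}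
    {W : ι → Type} [∀ i, Group (W i)] [∀ i, Finite (W i)] (e : (L ≃ₐ[ℚ] L) ≃* ∀ i, W i)
    {K Ω : Type} [Field K] [Field Ω] [Algebra K Ω] [IsGalois K Ω]
    (σ : L →+* Ω) (D : (Ω ≃ₐ[K] Ω) →* (L ≃ₐ[ℚ] L)) (hD : ∀ τ x, σ (D τ x) = τ (σ x))
    (hfin : {i | ∃ τ, e (D τ) i ≠ 1}.Finite) :
    ∃ E : IntermediateField K Ω, FiniteDimensional K E ∧ ∀ (φ : L →+* Ω) (x : L), φ x ∈ E := by
  classical
  let f : (Ω ≃ₐ[K] Ω) →* (∀ i : {i | ∃ τ, e (D τ) i ≠ 1}, W i) :=
    MonoidHom.pi fun i => (Pi.evalMonoidHom W i.1).comp (e.toMonoidHom.comp D)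
  have hfin' : Finite {i | ∃ τ, e (D τ) i ≠ 1} := hfin
  have hker : D.ker = f.ker := by
    ext τ
    rw [MonoidHom.mem_ker, MonoidHom.mem_ker]
    constructor
    · intro h
      funext i
      change e (D τ) i.1 = 1
      rw [h, map_one]
      rfl
    · intro h
      apply e.injective
      rw [map_one]
      funext i
      by_cases hi : ∃ τ, e (D τ) i ≠ 1
      · exact congrFun h ⟨i, hi⟩
      · push Not at hi
        exact hi τ
  have h1 : f.ker.FiniteIndex := by
    have : Finite f.range := Finite.of_injective _ Subtype.val_injective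
    exact ⟨by
      rw [Subgroup.index_ker]
      exact Nat.card_pos.ne'⟩
  have h2 : D.ker.FiniteIndex := hker ▸ h1
  refine ⟨fixedField D.ker, finite_fixed _, fun φ x => ?_⟩
  have hn : Normal ℚ L := inferInstance
  have h3 : φ x ∈ σ.range := by
    have h4 := hn.splits x
    have hne : minpoly ℚ x ≠ 0 := minpoly.ne_zero (Algebra.IsIntegral.isIntegral x)
    refine h4.mem_range_of_isRoot (Polynomial.map_ne_zero hne) ?_
    have h5 : σ.comp (algebraMap ℚ L) = φ.comp (algebraMap ℚ L) := Subsingleton.elim _ _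
    rw [Polynomial.map_map, h5, ← Polynomial.map_map]
    refine Polynomial.IsRoot.map ?_
    rw [Polynomial.IsRoot.def, Polynomial.eval_map_algebraMap]
    exact minpoly.aeval ℚ x
  obtain ⟨y, hy⟩ := h3
  rw [← hy, mem_fixedField_iff]
  intro τ hτ
  have h6 : D τ = 1 := hτ
  rw [← hD, h6]
  rfl

end

/-- Every finite group is isomorphic to a subgroup of some `Perm (Fin m)`. -/
theorem exists_code (H : Type) [Group H] [Finite H] :
    ∃ c : Σ m : ℕ, Subgroup (Equiv.Perm (Fin m)), Nonempty (c.2 ≃* H) := by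
  let c : H ≃ Fin (Nat.card H) := Finite.equivFin H
  let f : H →* Equiv.Perm (Fin (Nat.card H)) :=
    (c.permCongrHom.toMonoidHom).comp (MulAction.toPermHom H H)
  have hf : Function.Injective f := by
    refine c.permCongrHom.injective.comp ?_
    exact MulAction.toPerm_injective
  exact ⟨⟨Nat.card H, f.range⟩, ⟨(MonoidHom.ofInjective hf).symm⟩⟩

/-- Sparse injective choice of degrees. -/
theorem exists_degrees (A : Set ℕ) (hA : A.Infinite) (ι : Type) [Countable ι] (N : ι → ℕ) :
    ∃ n : ι → ℕ, Function.Injective n ∧ ∀ i, n i ∈ A ∧ N i ≤ n i := by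
  obtain ⟨f, hf⟩ := exists_injective_nat ι
  have hA' : (Set.ofPred (· ∈ A)).Infinite := hA
  refine ⟨fun i => Nat.nth (· ∈ A) (Nat.pair (f i) (N i)), ?_, fun i => ⟨?_, ?_⟩⟩
  · intro i j hij
    have h1 := Nat.nth_injective hA' hij
    have h2 := (Nat.pair_eq_pair.1 h1).1
    exact hf h2
  · exact Nat.nth_mem_of_infinite hA' _
  · exact (Nat.right_le_pair _ _).trans (Nat.nth_strictMono hA').le_apply

end Pool.Agent.R70.IG
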