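import Mathlib
import Pool.Agent.R70.IG.Local
import Pool.Agent.TH377.IG.Final

/-!
# The inverse Galois problem over a totally real field of sparse degree with finite local degrees
-/

set_option autoImplicit false

namespace Pool.Agent.R70.IG

open Pool.Agent.H391R2 IntermediateField NumberField

/-- The images of all embeddings of `K` into the algebraic closure of `ℚ_p` lie in one finite
extension of `ℚ_p`. -/
def FinLoc (K : Type) [Field K] (p : ℕ) [Fact p.Prime] : Prop :=
  ∃ E : IntermediateField ℚ_[p] (AlgebraicClosure ℚ_[p]), FiniteDimensional ℚ_[p] E ∧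
    ∀ (σ : K →+* AlgebraicClosure ℚ_[p]) (x : K), σ x ∈ E

theorem FinLoc.sub {K L : Type} [Field K] [Field L] [Algebra K L] [Algebra.IsAlgebraic K L]
    {p : ℕ} [Fact p.Prime] (h : FinLoc L p) : FinLoc K p := by
  obtain ⟨E, hE, h1⟩ := h
  refine ⟨E, hE, fun ψ x => ?_⟩
  let _ : Algebra K (AlgebraicClosure ℚ_[p]) := ψ.toAlgebra
  let φ : L →ₐ[K] AlgebraicClosure ℚ_[p] := IsAlgClosed.lift
  have h2 := h1 (φ : L →+* AlgebraicClosure ℚ_[p]) (algebraMap K L x)
  have h3 : (φ : L →+* AlgebraicClosure ℚ_[p]) (algebraMap K L x) = ψ x := φ.commutes x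
  rwa [h3] at h2

/-- Totally real with finite local degrees at all primes. -/
def Small (K : Type) [Field K] : Prop :=
  IsTotallyReal K ∧ ∀ (p : ℕ) [Fact p.Prime], FinLoc K p

theorem Small.sub {K L : Type} [Field K] [Field L] [Algebra K L] [Algebra.IsAlgebraic K L]
    (h : Small L) : Small K := by
  have := h.1
  exact ⟨IsTotallyReal.of_algebra K L, fun p _ => (h.2 p).sub⟩

section

attribute [-instance] DivisionRing.toRatAlgebra

theorem main (A : Set ℕ) (hA : A.Infinite) (h0 : 0 ∉ A) :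
    ∃ (F : Type) (_ : Field F) (_ : Algebra ℚ F), Algebra.IsAlgebraic ℚ F ∧ Small F ∧
      (∀ E : IntermediateField ℚ F, FiniteDimensional ℚ E →
        ∃ T : Finset ℕ, (T : Set ℕ) ⊆ A ∧ Module.finrank ℚ E ∣ ∏ a ∈ T, a) ∧
      ∀ (H : ℕ → Type) [∀ j, Group (H j)] [∀ j, Finite (H j)],
        ∃ (M : Type) (_ : Field M) (_ : Algebra F M), IsGalois F M ∧
          Nonempty ((M ≃ₐ[F] M) ≃* ∀ j, H j) ∧ Small M := by
  classical
  obtain ⟨n₀, C₀, hmain⟩ := Pool.Agent.TH377.IG.main_thm
  let ι : Type := (Σ m : ℕ, Subgroup (Equiv.Perm (Fin m))) × ℕ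
  let G : ι → Type := fun i => i.1.2
  let gG : ∀ i, Group (G i) := fun i => inferInstanceAs (Group i.1.2)
  have fG : ∀ i, Finite (G i) := fun i => inferInstanceAs (Finite i.1.2)
  obtain ⟨n, hn, hnA⟩ := exists_degrees A hA ι (fun i => n₀ (G i))
  obtain ⟨L, i1, i2, i3, e, he, htr, -, hloc⟩ := hmain ι G (fun _ => 0) n
    (fun i => Nat.zero_le _) (fun i => by
      rw [mul_zero, add_zero]
      exact (hnA i).2) (fun _ => ∅) (fun _ _ _ => 1) (fun i p _ h => absurd h (Finset.notMem_empty p))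
    ℚ
  have hpos : ∀ i, 0 < n i := fun i => Nat.pos_of_ne_zero fun h => h0 (h ▸ (hnA i).1)
  let z : ∀ i, Fin (n i) := fun i => ⟨0, hpos i⟩
  have hfW : ∀ i, Finite (Wr (G i) (n i)) := fun i =>
    Finite.of_equiv _ SemidirectProduct.equivProd.symm
  have hL : Small L := by
    refine ⟨htr, fun p _ => ?_⟩
    obtain ⟨σ, D, hD, -, hfin⟩ := hloc p
    refine finite_local e σ D hD ?_
    refine hfin.subset fun i hi => ⟨Finset.notMem_empty p, hi⟩
  have hFL : Algebra.IsAlgebraic (FF e z) L := Algebra.IsAlgebraic.tower_top (K := ℚ) (FF e z)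
  refine ⟨FF e z, (FF e z).toField, (FF e z).algebra', ?_, hL.sub (K := FF e z), ?_, ?_⟩
  · exact Algebra.IsAlgebraic.tower_bot ℚ (FF e z) L
  · intro E hE
    obtain ⟨T, hT⟩ := degree_FF e z he E
    refine ⟨T.image n, ?_, ?_⟩
    · intro a ha
      rw [Finset.coe_image] at ha
      obtain ⟨i, -, rfl⟩ := ha
      exact (hnA i).1
    · rw [Finset.prod_image (fun i _ j _ h => hn h)]
      exact hT
  · intro H _ _
    choose c hc using fun j => exists_code (H j)
    let idx : ℕ → ι := fun j => (c j, j)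
    have hinj : Function.Injective idx := fun a b h => congrArg Prod.snd h
    obtain ⟨M, hM, hM2⟩ := real_FF e z he idx hinj (H := H) (fun j => (hc j).some)
    exact ⟨M, M.toField, M.algebra', hM, hM2, hL.sub (K := M)⟩

end

end Pool.Agent.R70.IG
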