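import Mathlib
import Pool.Agent.R70.IG.Real

/-!
# Fixed fields of point stabilizers: symmetric fibre powers of embedding problems

`r i` are homomorphisms of the Galois group of `L / k` to the wreath products `E i ≀ S_(n i)` and `ρ` is
a homomorphism to `Γ`, jointly bijective onto the elements with `α i (x_i.left j) = ρ`.
-/

set_option autoImplicit false

namespace Pool.Agent.R70.IG

open Pool.Agent.H391R2 IntermediateField

/-- The data. -/
structure Dat {k L : Type} [Field k] [Field L] [Algebra k L] {Γ ι : Type} [Group Γ]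
    {E : ι → Type} [∀ i, Group (E i)] (α : ∀ i, E i →* Γ) (n : ι → ℕ)
    (ρ : (L ≃ₐ[k] L) →* Γ) (r : ∀ i, (L ≃ₐ[k] L) →* Wr (E i) (n i)) : Prop where
  left : ∀ σ i j, α i ((r i σ).left j) = ρ σ
  inj : ∀ σ, (∀ i, r i σ = 1) → ρ σ = 1 → σ = 1
  surj : ∀ (g : Γ) (w : ∀ i, Wr (E i) (n i)), (∀ i j, α i ((w i).left j) = g) →
    ∃ σ, ρ σ = g ∧ ∀ i, r i σ = w i
  openρ : IsOpen (ρ.ker : Set (L ≃ₐ[k] L))
  openr : ∀ i, IsOpen ((r i).ker : Set (L ≃ₐ[k] L))

theorem open_hom {G H : Type} [Group G] [TopologicalSpace G] [IsTopologicalGroup G] [Group H]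
    (f : G →* H) (hf : IsOpen (f.ker : Set G)) (C : Set H) : IsOpen {s : G | f s ∈ C} := by
  rw [isOpen_iff_forall_mem_open]
  intro s hs
  refine ⟨(fun t => s⁻¹ * t) ⁻¹' (f.ker : Set G), ?_, hf.preimage (continuous_const_mul _), ?_⟩
  · intro t ht
    have h1 : f (s⁻¹ * t) = 1 := ht
    rw [map_mul, map_inv, inv_mul_eq_one] at h1
    change f t ∈ C
    rw [← h1]
    exact hs
  · change f (s⁻¹ * s) = 1
    rw [inv_mul_cancel, map_one]

theorem closed_hom {G H : Type} [Group G] [TopologicalSpace G] [IsTopologicalGroup G] [Group H]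
    (f : G →* H) (hf : IsOpen (f.ker : Set G)) (C : Set H) : IsClosed {s : G | f s ∈ C} := by
  rw [← isOpen_compl_iff]
  exact open_hom f hf Cᶜ

section

variable {k L : Type} [Field k] [Field L] [Algebra k L] {Γ ι : Type} [Group Γ]
  {E : ι → Type} [∀ i, Group (E i)] {α : ∀ i, E i →* Γ} {n : ι → ℕ}
  {ρ : (L ≃ₐ[k] L) →* Γ} {r : ∀ i, (L ≃ₐ[k] L) →* Wr (E i) (n i)} (z : ∀ i, Fin (n i))

/-- The stabilizer of all the points. -/
def UU (r : ∀ i, (L ≃ₐ[k] L) →* Wr (E i) (n i)) (z : ∀ i, Fin (n i)) : Subgroup (L ≃ₐ[k] L) :=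
  ⨅ i, (St (E i) (n i) (z i)).comap (r i)

theorem mem_UU {s : L ≃ₐ[k] L} : s ∈ UU r z ↔ ∀ i, (r i s).right (z i) = z i := by
  rw [UU, Subgroup.mem_iInf]
  exact Iff.rfl

theorem closed_UU (h : Dat α n ρ r) : IsClosed (UU r z : Set (L ≃ₐ[k] L)) := by
  have h1 : (UU r z : Set (L ≃ₐ[k] L)) =
      ⋂ i, {s : L ≃ₐ[k] L | r i s ∈ (St (E i) (n i) (z i) : Set (Wr (E i) (n i)))} := by
    ext s
    rw [SetLike.mem_coe, mem_UU, Set.mem_iInter]
    exact Iff.rfl
  rw [h1]
  exact isClosed_iInter fun i => closed_hom (r i) (h.openr i) _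

/-- The fixed field. -/
def FU (r : ∀ i, (L ≃ₐ[k] L) →* Wr (E i) (n i)) (z : ∀ i, Fin (n i)) : IntermediateField k L :=
  fixedField (UU r z)

theorem fix_FU [IsGalois k L] (h : Dat α n ρ r) : (FU r z).fixingSubgroup = UU r z :=
  InfiniteGalois.fixingSubgroup_fixedField ⟨UU r z, closed_UU z h⟩

theorem open_contains_gen [IsGalois k L] (h : Dat α n ρ r)
    (V : Subgroup (L ≃ₐ[k] L)) (hV : IsOpen (V : Set (L ≃ₐ[k] L))) :
    ∃ T : Finset ι, ∀ s : L ≃ₐ[k] L, ρ s = 1 → (∀ i ∈ T, r i s = 1) → s ∈ V := by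
  classical
  have hc : IsCompact ((V : Set (L ≃ₐ[k] L))ᶜ ∩ {s : L ≃ₐ[k] L | ρ s ∈ ({1} : Set Γ)}) :=
    (hV.isClosed_compl.inter (closed_hom ρ h.openρ _)).isCompact
  have h1 : ((V : Set (L ≃ₐ[k] L))ᶜ ∩ {s : L ≃ₐ[k] L | ρ s ∈ ({1} : Set Γ)}) ∩
      ⋂ i, {s : L ≃ₐ[k] L | r i s ∈ ({1} : Set (Wr (E i) (n i)))} = ∅ := by
    rw [Set.eq_empty_iff_forall_notMem]
    rintro s ⟨⟨hs, hsρ⟩, hs2⟩
    rw [Set.mem_iInter] at hs2
    have h3 : s = 1 := h.inj s (fun i => hs2 i) hsρ
    exact hs (h3 ▸ V.one_mem)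
  obtain ⟨T, hT⟩ := hc.elim_finite_subfamily_closed _
    (fun i => closed_hom (r i) (h.openr i) _) h1
  refine ⟨T, fun s hsρ hs => ?_⟩
  by_contra hsV
  have h2 : s ∈ ((V : Set (L ≃ₐ[k] L))ᶜ ∩ {s : L ≃ₐ[k] L | ρ s ∈ ({1} : Set Γ)}) ∩
      ⋂ i ∈ T, {s : L ≃ₐ[k] L | r i s ∈ ({1} : Set (Wr (E i) (n i)))} :=
    ⟨⟨hsV, hsρ⟩, by
      rw [Set.mem_iInter₂]
      intro i hi
      exact hs i hi⟩
  rw [hT] at h2
  exact h2

theorem open_contains_gen' [IsGalois k L] (h : Dat α n ρ r) (hα : ∀ i, Function.Surjective (α i))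
    (V : Subgroup (L ≃ₐ[k] L)) (hV : IsOpen (V : Set (L ≃ₐ[k] L))) (hUV : UU r z ≤ V) :
    ∃ T : Finset ι, ∀ s : L ≃ₐ[k] L, (∀ i ∈ T, (r i s).right (z i) = z i) → s ∈ V := by
  classical
  obtain ⟨T, hT⟩ := open_contains_gen h V hV
  refine ⟨T, fun s hs => ?_⟩
  choose y hy using fun i => hα i (ρ s)
  set w : ∀ i, Wr (E i) (n i) := fun i => if i ∈ T then r i s else ⟨fun _ => y i, 1⟩ with hw
  obtain ⟨u, hu1, hu2⟩ := h.surj (ρ s) w (by
    intro i j
    by_cases hi : i ∈ T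
    · simp only [hw, hi, if_true]
      exact h.left s i j
    · simp only [hw, hi, if_false]
      exact hy i)
  have h1 : u ∈ UU r z := by
    rw [mem_UU]
    intro i
    rw [hu2]
    by_cases hi : i ∈ T
    · simp only [hw, hi, if_true]
      exact hs i hi
    · simp only [hw, hi, if_false]
      rfl
  have h2 : u⁻¹ * s ∈ V := by
    apply hT
    · rw [map_mul, map_inv, hu1, inv_mul_cancel]
    · intro i hi
      rw [map_mul, map_inv, hu2]
      simp only [hw, hi, if_true]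
      exact inv_mul_cancel _
  have h3 := V.mul_mem (hUV h1) h2
  rwa [mul_inv_cancel_left] at h3

/-- The action on the points. -/
@[reducible] def actG (r : ∀ i, (L ≃ₐ[k] L) →* Wr (E i) (n i)) (T : Finset ι) :
    MulAction (L ≃ₐ[k] L) (∀ i : T, Fin (n i)) where
  smul s x i := (r i s).right (x i)
  one_smul x := by
    funext i
    change (r i 1).right (x i) = x i
    rw [map_one]
    rfl
  mul_smul s t x := by
    funext i
    change (r i (s * t)).right (x i) = (r i s).right ((r i t).right (x i))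
    rw [map_mul, wr_mul_right, Equiv.Perm.mul_apply]

theorem index_gen (h : Dat α n ρ r) (T : Finset ι) (W : Subgroup (L ≃ₐ[k] L))
    (hW : ∀ s, s ∈ W ↔ ∀ i ∈ T, (r i s).right (z i) = z i) :
    W.index = ∏ i ∈ T, n i := by
  classical
  let _ := actG r T
  have htr : MulAction.IsPretransitive (L ≃ₐ[k] L) (∀ i : T, Fin (n i)) := by
    refine ⟨fun x y => ?_⟩
    let w : ∀ i, Wr (E i) (n i) := fun i =>
      if hi : i ∈ T then SemidirectProduct.inr (Equiv.swap (x ⟨i, hi⟩) (y ⟨i, hi⟩)) else 1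
    obtain ⟨s, -, hs⟩ := h.surj 1 w (by
      intro i j
      by_cases hi : i ∈ T
      · simp only [w, hi, dif_pos]
        exact map_one (α i)
      · simp only [w, hi]
        exact map_one (α i))
    refine ⟨s, ?_⟩
    funext i
    change (r i s).right (x i) = y i
    rw [hs]
    have h1 : w i = SemidirectProduct.inr (Equiv.swap (x i) (y i)) := by
      simp only [w, i.2, dif_pos]
    rw [h1, SemidirectProduct.right_inr, Equiv.swap_apply_left]
  have h1 : W = MulAction.stabilizer (L ≃ₐ[k] L) (fun i : T => z i) := by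
    ext s
    rw [hW, MulAction.mem_stabilizer_iff]
    constructor
    · intro hs
      funext i
      exact hs i i.2
    · intro hs i hi
      exact congrFun hs ⟨i, hi⟩
  rw [h1, MulAction.index_stabilizer_of_transitive, Nat.card_pi]
  simp only [Nat.card_eq_fintype_card, Fintype.card_fin]
  exact Finset.prod_coe_sort T n

theorem degree_gen [IsGalois k L] (h : Dat α n ρ r) (hα : ∀ i, Function.Surjective (α i))
    (M : IntermediateField k (FU r z)) [FiniteDimensional k M] :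
    ∃ T : Finset ι, Module.finrank k M ∣ ∏ i ∈ T, n i := by
  classical
  have h1 : Module.finrank k (lift M) = Module.finrank k M :=
    ((liftAlgEquiv M).toLinearEquiv.finrank_eq).symm
  have hfd : FiniteDimensional k (lift M) := (liftAlgEquiv M).toLinearEquiv.finiteDimensional
  have h2 : UU r z ≤ (lift M).fixingSubgroup := by
    rw [← fix_FU z h]
    exact fixingSubgroup_le (lift_le M)
  have h3 : IsOpen ((lift M).fixingSubgroup : Set (L ≃ₐ[k] L)) :=
    IntermediateField.fixingSubgroup_isOpen (lift M)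
  obtain ⟨T, hT⟩ := open_contains_gen' z h hα _ h3 h2
  refine ⟨T, ?_⟩
  let W : Subgroup (L ≃ₐ[k] L) := ⨅ i ∈ T, (St (E i) (n i) (z i)).comap (r i)
  have hW : ∀ s, s ∈ W ↔ ∀ i ∈ T, (r i s).right (z i) = z i := by
    intro s
    simp only [W, Subgroup.mem_iInf]
    exact Iff.rfl
  have h4 : W ≤ (lift M).fixingSubgroup := fun s hs => hT s ((hW s).1 hs)
  have h5 := Subgroup.index_dvd_of_le h4
  rw [index_gen z h T W hW] at h5
  rw [← h1, finrank_eq_fixingSubgroup_index]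
  exact h5

/-! ### Solutions -/

/-- The fibre product of a family of homomorphisms. -/
def FP {Γ J : Type} [Group Γ] {E : J → Type} [∀ j, Group (E j)] (π : ∀ j, E j →* Γ) :
    Subgroup ((∀ j, E j) × Γ) where
  carrier := {p | ∀ j, π j (p.1 j) = p.2}
  one_mem' := fun j => map_one (π j)
  mul_mem' := by
    intro a b ha hb j
    change π j (a.1 j * b.1 j) = a.2 * b.2
    rw [map_mul, ha, hb]
  inv_mem' := by
    intro a ha j
    change π j (a.1 j)⁻¹ = (a.2)⁻¹
    rw [map_inv, ha]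

/-- The map from the stabilizer of the points to a fibre product. -/
def wUU (h : Dat α n ρ r) {J : Type} (idx : J → ι) {H : J → Type} [∀ j, Group (H j)]
    (π : ∀ j, H j →* Γ) (θ : ∀ j, E (idx j) ≃* H j) (hθ : ∀ j x, π j (θ j x) = α (idx j) x) :
    UU r z →* FP π where
  toFun s := ⟨(fun j => θ j ((r (idx j) s.1).left (z (idx j))), ρ s.1), fun j => by
    change π j (θ j _) = ρ s.1
    rw [hθ, h.left]⟩
  map_one' := by
    apply Subtype.ext
    apply Prod.ext
    · funext j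
      change θ j ((r (idx j) 1).left (z (idx j))) = 1
      rw [map_one]
      exact map_one (θ j)
    · exact map_one ρ
  map_mul' := by
    intro a b
    apply Subtype.ext
    apply Prod.ext
    · funext j
      change θ j ((r (idx j) (a.1 * b.1)).left (z (idx j))) =
        θ j ((r (idx j) a.1).left (z (idx j))) * θ j ((r (idx j) b.1).left (z (idx j)))
      have h2 : (r (idx j) a.1).right (z (idx j)) = z (idx j) := (mem_UU z).1 a.2 _
      have h3 : (r (idx j) a.1).right⁻¹ (z (idx j)) = z (idx j) :=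
        Equiv.Perm.inv_eq_iff_eq.2 h2.symm
      rw [map_mul, wr_mul_left, h3, map_mul]
    · exact map_mul ρ a.1 b.1

theorem wUU_surj (h : Dat α n ρ r) (hα : ∀ i, Function.Surjective (α i)) {J : Type} (idx : J → ι)
    (hinj : Function.Injective idx) {H : J → Type} [∀ j, Group (H j)]
    (π : ∀ j, H j →* Γ) (θ : ∀ j, E (idx j) ≃* H j) (hθ : ∀ j x, π j (θ j x) = α (idx j) x) :
    Function.Surjective (wUU z h idx π θ hθ) := by
  classical
  rintro ⟨⟨a, g⟩, hag⟩
  have hag' : ∀ j, π j (a j) = g := hag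
  have h1 : ∀ i, ∃ y : E i, α i y = g ∧ ∀ (j : J) (hj : idx j = i), hj ▸ (θ j).symm (a j) = y := by
    intro i
    by_cases hi : ∃ j, idx j = i
    · obtain ⟨j₀, rfl⟩ := hi
      refine ⟨(θ j₀).symm (a j₀), ?_, fun j hj => ?_⟩
      · rw [← hθ, MulEquiv.apply_symm_apply, hag']
      · obtain rfl := hinj hj
        rfl
    · obtain ⟨y, hy⟩ := hα i g
      exact ⟨y, hy, fun j hj => absurd ⟨j, hj⟩ hi⟩
  choose y hy1 hy2 using h1
  obtain ⟨u, hu1, hu2⟩ := h.surj g (fun i => ⟨fun _ => y i, 1⟩) (fun i j => hy1 i)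
  have hu : u ∈ UU r z := by
    rw [mem_UU]
    intro i
    rw [hu2]
    rfl
  refine ⟨⟨u, hu⟩, ?_⟩
  apply Subtype.ext
  apply Prod.ext
  · funext j
    change θ j ((r (idx j) u).left (z (idx j))) = a j
    rw [hu2]
    change θ j (y (idx j)) = a j
    rw [← hy2 (idx j) j rfl, MulEquiv.apply_symm_apply]
  · exact hu1

/-- A Galois extension of the fixed field with group the fibre product. -/
theorem sol_gen [IsGalois k L] (h : Dat α n ρ r) (hα : ∀ i, Function.Surjective (α i))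
    {J : Type} (idx : J → ι) (hinj : Function.Injective idx) {H : J → Type} [∀ j, Group (H j)]
    (π : ∀ j, H j →* Γ) (θ : ∀ j, E (idx j) ≃* H j) (hθ : ∀ j x, π j (θ j x) = α (idx j) x) :
    ∃ (M : IntermediateField (FU r z) L) (_ : IsGalois (FU r z) M)
      (γ : (M ≃ₐ[FU r z] M) ≃* FP π),
      (∀ j, IsOpen {σ : M ≃ₐ[FU r z] M | (γ σ).1.1 j = 1}) ∧
      (∀ x : L, (∀ σ : L ≃ₐ[k] L, ρ σ = 1 → σ x = x) → x ∈ M) ∧
      ∀ τ : M ≃ₐ[FU r z] M, ∃ σ : L ≃ₐ[k] L, (γ τ).1.2 = ρ σ ∧ ∀ x : M, σ x = τ x := by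
  classical
  let f1 : (L ≃ₐ[FU r z] L) ≃* (FU r z).fixingSubgroup := (fixingSubgroupEquiv (FU r z)).symm
  let f2 : (FU r z).fixingSubgroup ≃* UU r z := MulEquiv.subgroupCongr (fix_FU z h)
  let f : (L ≃ₐ[FU r z] L) ≃* UU r z := f1.trans f2
  have hf : ∀ τ : L ≃ₐ[FU r z] L, (f τ).1 = AlgEquiv.restrictScalarsHom k τ := fun τ => rfl
  let w : (L ≃ₐ[FU r z] L) →* FP π := (wUU z h idx π θ hθ).comp f.toMonoidHom
  have hs : Function.Surjective w := (wUU_surj z h hα idx hinj π θ hθ).comp f.surjective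
  have hw1 : ∀ τ j, (w τ).1.1 j =
      θ j ((r (idx j) (AlgEquiv.restrictScalarsHom k τ)).left (z (idx j))) := fun τ j => rfl
  have hw2 : ∀ τ, (w τ).1.2 = ρ (AlgEquiv.restrictScalarsHom k τ) := fun τ => rfl
  have hopen : ∀ j, IsOpen {τ : L ≃ₐ[FU r z] L | (w τ).1.1 j = 1} := by
    intro j
    have h2 : {τ : L ≃ₐ[FU r z] L | (w τ).1.1 j = 1} = (AlgEquiv.restrictScalarsHom k :
        (L ≃ₐ[FU r z] L) →* (L ≃ₐ[k] L)) ⁻¹' {s : L ≃ₐ[k] L | r (idx j) s ∈
        ({x | x.left (z (idx j)) = 1} : Set (Wr (E (idx j)) (n (idx j))))} := by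
      ext τ
      change (w τ).1.1 j = 1 ↔
        (r (idx j) (AlgEquiv.restrictScalarsHom k τ)).left (z (idx j)) = 1
      rw [hw1, MulEquiv.map_eq_one_iff]
    rw [h2]
    exact (open_hom (r (idx j)) (h.openr _) _).preimage (cont_res (FU r z))
  have hclosed1 : ∀ j, IsClosed {τ : L ≃ₐ[FU r z] L | (w τ).1.1 j = 1} := by
    intro j
    let wj : (L ≃ₐ[FU r z] L) →* H j :=
      ((Pi.evalMonoidHom H j).comp (MonoidHom.fst (∀ j, H j) Γ)).comp ((FP π).subtype.comp w)
    exact closed_hom wj (hopen j) ({1} : Set (H j))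
  have hclosed2 : IsClosed {τ : L ≃ₐ[FU r z] L | (w τ).1.2 = 1} := by
    have h2 : {τ : L ≃ₐ[FU r z] L | (w τ).1.2 = 1} = (AlgEquiv.restrictScalarsHom k :
        (L ≃ₐ[FU r z] L) →* (L ≃ₐ[k] L)) ⁻¹' {s : L ≃ₐ[k] L | ρ s ∈ ({1} : Set Γ)} := rfl
    rw [h2]
    exact (closed_hom ρ h.openρ _).preimage (cont_res (FU r z))
  have hc : IsClosed (w.ker : Set (L ≃ₐ[FU r z] L)) := by
    have h2 : (w.ker : Set (L ≃ₐ[FU r z] L)) =
        {τ : L ≃ₐ[FU r z] L | (w τ).1.2 = 1} ∩ ⋂ j, {τ : L ≃ₐ[FU r z] L | (w τ).1.1 j = 1} := by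
      ext τ
      rw [SetLike.mem_coe, MonoidHom.mem_ker, Set.mem_inter_iff, Set.mem_iInter]
      constructor
      · intro h3
        refine ⟨?_, fun j => ?_⟩
        · change (w τ).1.2 = 1
          rw [h3]
          rfl
        · change (w τ).1.1 j = 1
          rw [h3]
          rfl
      · rintro ⟨h3, h4⟩
        apply Subtype.ext
        apply Prod.ext
        · funext j
          exact h4 j
        · exact h3
    rw [h2]
    exact hclosed2.inter (isClosed_iInter hclosed1)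
  let HC : ClosedSubgroup (L ≃ₐ[FU r z] L) := ⟨w.ker, hc⟩
  have hn : HC.Normal := by
    change w.ker.Normal
    infer_instance
  have h1 : (fixedField w.ker).fixingSubgroup = w.ker :=
    InfiniteGalois.fixingSubgroup_fixedField HC
  have h2 : IsGalois (FU r z) (fixedField w.ker) := by
    rw [← InfiniteGalois.normal_iff_isGalois, h1]
    infer_instance
  let q := QuotientGroup.quotientKerEquivOfSurjective w hs
  let e2 := InfiniteGalois.normalAutEquivQuotient HC
  let γ : ((fixedField w.ker) ≃ₐ[FU r z] (fixedField w.ker)) ≃* FP π := (q.symm.trans e2).symm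
  have hγ : ∀ τ : L ≃ₐ[FU r z] L, γ (AlgEquiv.restrictNormalHom (fixedField w.ker) τ) = w τ := by
    intro τ
    have h3 : e2 (QuotientGroup.mk τ) = AlgEquiv.restrictNormalHom (fixedField w.ker) τ := rfl
    rw [← h3]
    change q (e2.symm (e2 (QuotientGroup.mk τ))) = w τ
    rw [MulEquiv.symm_apply_apply]
    rfl
  have hsurj := AlgEquiv.restrictNormalHom_surjective (F := FU r z) (K₁ := fixedField w.ker) L
  refine ⟨fixedField w.ker, h2, γ, fun j => ?_, fun x hx => ?_, fun τ => ?_⟩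
  · have hcont := InfiniteGalois.restrictNormalHom_continuous (k := FU r z) (K := L)
      (fixedField w.ker)
    have hq : Topology.IsQuotientMap
        (AlgEquiv.restrictNormalHom (F := FU r z) (K₁ := L) (fixedField w.ker)) :=
      hcont.isClosedMap.isQuotientMap hcont hsurj
    rw [← hq.isOpen_preimage]
    have h4 : (AlgEquiv.restrictNormalHom (F := FU r z) (K₁ := L) (fixedField w.ker)) ⁻¹'
        {σ | (γ σ).1.1 j = 1} = {τ : L ≃ₐ[FU r z] L | (w τ).1.1 j = 1} := by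
      ext τ
      change (γ _).1.1 j = 1 ↔ (w τ).1.1 j = 1
      rw [hγ]
    rw [h4]
    exact hopen j
  · rw [mem_fixedField_iff]
    intro τ hτ
    refine hx (AlgEquiv.restrictScalarsHom k τ) ?_
    rw [← hw2]
    have h3 : w τ = 1 := hτ
    rw [h3]
    rfl
  · obtain ⟨t, rfl⟩ := hsurj τ
    refine ⟨AlgEquiv.restrictScalarsHom k t, ?_, fun x => ?_⟩
    · rw [hγ, hw2]
    · exact (AlgEquiv.restrictNormal_commutes t (fixedField w.ker) x).symm

end

end Pool.Agent.R70.IG
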