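import Mathlib
import Pool.Agent.R70.IG.Gen
import Pool.Agent.R70.IG.Local
import Pool.Agent.TH377.IG.HilbFin

/-!
# Base change of sparse degree which solves all split embedding problems for a given extension
-/

set_option autoImplicit false

namespace Pool.Agent.R70.IG

open Pool.Agent.H391R2 IntermediateField
open Pool.Agent.H391R2.T4 (SymEP symProj WeakSol HilbField)
open Pool.Agent.TH377.IG (FPI)

/-- The data from an isomorphism with an infinite fibre product. -/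
theorem dat_of_iso {k L : Type} [Field k] [Field L] [Algebra k L] {Γ ι : Type} [Group Γ]
    {E : ι → Type} [∀ i, Group (E i)] (α : ∀ i, E i →* Γ) (n : ι → ℕ)
    (γ : (L ≃ₐ[k] L) ≃* FPI fun i => symProj (α i) (n i))
    (hi : ∀ i, IsOpen {σ : L ≃ₐ[k] L | (γ σ : (∀ i, SymEP (α i) (n i)) × Γ).1 i = 1})
    (hρ : IsOpen {σ : L ≃ₐ[k] L | (γ σ : (∀ i, SymEP (α i) (n i)) × Γ).2 = 1}) :
    ∃ (ρ : (L ≃ₐ[k] L) →* Γ) (r : ∀ i, (L ≃ₐ[k] L) →* Wr (E i) (n i)),
      (∀ σ, ρ σ = (γ σ : (∀ i, SymEP (α i) (n i)) × Γ).2) ∧ Dat α n ρ r := by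
  let c : ∀ i, (L ≃ₐ[k] L) →* SymEP (α i) (n i) := fun i =>
    ((Pi.evalMonoidHom (fun i => SymEP (α i) (n i)) i).comp
      (MonoidHom.fst (∀ i, SymEP (α i) (n i)) Γ)).comp
      ((FPI fun i => symProj (α i) (n i)).subtype.comp γ.toMonoidHom)
  let ρ : (L ≃ₐ[k] L) →* Γ := (MonoidHom.snd (∀ i, SymEP (α i) (n i)) Γ).comp
    ((FPI fun i => symProj (α i) (n i)).subtype.comp γ.toMonoidHom)
  let r : ∀ i, (L ≃ₐ[k] L) →* Wr (E i) (n i) := fun i =>
    (MonoidHom.fst (Wr (E i) (n i)) Γ).comp ((SymEP (α i) (n i)).subtype.comp (c i))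
  have hc2 : ∀ σ i, ((c i σ : SymEP (α i) (n i)) : Wr (E i) (n i) × Γ).2 = ρ σ :=
    fun σ i => (γ σ).2 i
  refine ⟨ρ, r, fun σ => rfl, ⟨?_, ?_, ?_, hρ, fun i => ?_⟩⟩
  · intro σ i j
    rw [← hc2 σ i]
    exact (c i σ).2 j
  · intro σ h1 h2
    apply γ.injective
    rw [map_one]
    apply Subtype.ext
    apply Prod.ext
    · funext i
      apply Subtype.ext
      apply Prod.ext
      · exact h1 i
      · change ((c i σ : SymEP (α i) (n i)) : Wr (E i) (n i) × Γ).2 = 1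
        rw [hc2, h2]
    · exact h2
  · intro g w hw
    let x : FPI fun i => symProj (α i) (n i) :=
      ⟨(fun i => ⟨(w i, g), fun j => hw i j⟩, g), fun i => rfl⟩
    refine ⟨γ.symm x, ?_, fun i => ?_⟩
    · change (γ (γ.symm x) : (∀ i, SymEP (α i) (n i)) × Γ).2 = g
      rw [MulEquiv.apply_symm_apply]
    · change ((γ (γ.symm x) : (∀ i, SymEP (α i) (n i)) × Γ).1 i).1.1 = w i
      rw [MulEquiv.apply_symm_apply]
  · have h1 : (c i).ker ≤ (r i).ker := by
      intro σ hσ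
      have h2 : c i σ = 1 := hσ
      change (c i σ).1.1 = 1
      rw [h2]
      rfl
    exact Subgroup.isOpen_mono h1 (hi i)

theorem weakSol_equiv {K L E E' : Type} [Field K] [Field L] [Algebra K L] [Normal K L] [Group E]
    [Group E'] (α : E →* (L ≃ₐ[K] L)) (θ : E' ≃* E) (h : WeakSol K L E α) :
    WeakSol K L E' (α.comp θ.toMonoidHom) := by
  obtain ⟨L', i1, i2, i3, i4, i5, i6, s, hs⟩ := h
  refine ⟨L', i1, i2, i3, i4, i5, i6, θ.symm.toMonoidHom.comp s, fun ρ => ?_⟩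
  rw [← hs]
  change α (θ (θ.symm (s ρ))) = α (s ρ)
  rw [MulEquiv.apply_symm_apply]

/-- Codes for embedding problems. -/
abbrev Code (Γ : Type) [Group Γ] : Type :=
  Σ m : ℕ, Σ S : Subgroup (Equiv.Perm (Fin m)), (S →* Γ)

theorem countable_code (Γ : Type) [Group Γ] [Finite Γ] : Countable (Code Γ) := by
  have h1 : ∀ (m : ℕ) (S : Subgroup (Equiv.Perm (Fin m))), Finite (S →* Γ) := fun m S =>
    DFunLike.finite _
  infer_instance

/-- The properties of the field `F` in the main theorem. -/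
def Solves (K F₁ F : Type) [Field K] [Field F₁] [Algebra K F₁] [Field F] [Algebra K F]
    [Normal K F₁] : Prop :=
  ∀ (J : Type) [Countable J] (H : J → Type) [∀ j, Group (H j)] [∀ j, Finite (H j)]
    (π : ∀ j, H j →* (F₁ ≃ₐ[K] F₁)), (∀ j, Function.Surjective (π j)) →
    (∀ j, WeakSol K F₁ (H j) (π j)) →
    ∃ (N : Type) (_ : Field N) (_ : Algebra F N) (_ : Algebra F₁ N) (_ : Algebra K N)
      (_ : IsScalarTower K F N) (_ : IsScalarTower K F₁ N) (_ : IsGalois F N)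
      (γ : (N ≃ₐ[F] N) ≃* FP π),
      (∀ j, IsOpen {σ : N ≃ₐ[F] N | (γ σ).1.1 j = 1}) ∧
      ∀ (σ : N ≃ₐ[F] N) (x : F₁), σ (algebraMap F₁ N x) = algebraMap F₁ N ((γ σ).1.2 x)

theorem main_EP (K : Type) [Field K] (hK : HilbField K) (F₁ : Type) [Field F₁] [Algebra K F₁]
    [FiniteDimensional K F₁] [IsGalois K F₁] (A : Set ℕ) (hA : A.Infinite) (h0 : 0 ∉ A) :
    ∃ (F : Type) (_ : Field F) (_ : Algebra K F), Algebra.IsSeparable K F ∧
      (∀ M : IntermediateField K F, FiniteDimensional K M →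
        ∃ T : Finset ℕ, (T : Set ℕ) ⊆ A ∧ Module.finrank K M ∣ ∏ a ∈ T, a) ∧ Solves K F₁ F := by
  classical
  have hfΓ : Finite (F₁ ≃ₐ[K] F₁) := inferInstance
  have hcc := countable_code (F₁ ≃ₐ[K] F₁)
  let ι : Type := {c : Code (F₁ ≃ₐ[K] F₁) // Function.Surjective c.2.2 ∧
    WeakSol K F₁ c.2.1 c.2.2} × ℕ
  let E : ι → Type := fun i => i.1.1.2.1
  let gE : ∀ i, Group (E i) := fun i => inferInstanceAs (Group i.1.1.2.1)
  have fE : ∀ i, Finite (E i) := fun i => inferInstanceAs (Finite i.1.1.2.1)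
  let α : ∀ i, E i →* (F₁ ≃ₐ[K] F₁) := fun i => i.1.1.2.2
  have hα : ∀ i, Function.Surjective (α i) := fun i => i.1.2.1
  obtain ⟨n, hn, hnA⟩ := exists_degrees A hA ι
    (fun i => ((3 * Nat.card (α i).ker + 2).factorial) ^ 3)
  obtain ⟨L, i1, i2, i3, i4, i5, γ, hγo, hγ⟩ := Pool.Agent.TH377.IG.inf_hilb_sym hK F₁ ι E α
    (fun i => i.1.2.2) n (fun i => (hnA i).2)
  have hρo : IsOpen {σ : L ≃ₐ[K] L | (γ σ : (∀ i, SymEP (α i) (n i)) × (F₁ ≃ₐ[K] F₁)).2 = 1} := by
    let j : F₁ →ₐ[K] L := IsScalarTower.toAlgHom K F₁ L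
    have hfd : FiniteDimensional K j.fieldRange :=
      LinearEquiv.finiteDimensional j.equivFieldRange.toLinearEquiv
    let ρ : (L ≃ₐ[K] L) →* (F₁ ≃ₐ[K] F₁) := (MonoidHom.snd (∀ i, SymEP (α i) (n i)) _).comp
      ((FPI fun i => symProj (α i) (n i)).subtype.comp γ.toMonoidHom)
    have h1 : j.fieldRange.fixingSubgroup ≤ ρ.ker := by
      intro σ hσ
      rw [IntermediateField.mem_fixingSubgroup_iff] at hσ
      rw [MonoidHom.mem_ker]
      ext x
      apply (algebraMap F₁ L).injective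
      change algebraMap F₁ L ((γ σ : (∀ i, SymEP (α i) (n i)) × (F₁ ≃ₐ[K] F₁)).2 x) = _
      rw [← hγ]
      exact hσ _ ⟨x, rfl⟩
    exact Subgroup.isOpen_mono h1 (IntermediateField.fixingSubgroup_isOpen _)
  obtain ⟨ρ, r, hρ, hD⟩ := dat_of_iso α n γ hγo hρo
  have hpos : ∀ i, 0 < n i := fun i => Nat.pos_of_ne_zero fun h => h0 (h ▸ (hnA i).1)
  let z : ∀ i, Fin (n i) := fun i => ⟨0, hpos i⟩
  refine ⟨FU r z, (FU r z).toField, (FU r z).algebra', ?_, ?_, ?_⟩
  · exact Algebra.isSeparable_tower_bot_of_isSeparable K (FU r z) L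
  · intro M hM
    obtain ⟨T, hT⟩ := degree_gen z hD hα M
    refine ⟨T.image n, ?_, ?_⟩
    · intro a ha
      rw [Finset.coe_image] at ha
      obtain ⟨i, -, rfl⟩ := ha
      exact (hnA i).1
    · rw [Finset.prod_image (fun i _ j _ h => hn h)]
      exact hT
  · intro J _ H _ _ π hπ hw
    obtain ⟨f, hf⟩ := exists_injective_nat J
    choose c hc using fun j => exists_code (H j)
    let idx : J → ι := fun j =>
      (⟨⟨(c j).1, (c j).2, (π j).comp (hc j).some.toMonoidHom⟩,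
        (hπ j).comp (hc j).some.surjective, weakSol_equiv (π j) (hc j).some (hw j)⟩, f j)
    have hinj : Function.Injective idx := fun a b h => hf (congrArg Prod.snd h)
    obtain ⟨M, hM, γ', h1, h2, h3⟩ := sol_gen z hD hα idx hinj π (fun j => (hc j).some)
      (fun j x => rfl)
    have hmem : ∀ x : F₁, algebraMap F₁ L x ∈ M := by
      intro x
      refine h2 _ fun σ hσ => ?_
      rw [hγ, ← hρ, hσ]
      rfl
    let e₁ : F₁ →+* M := (algebraMap F₁ L).codRestrict M hmem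
    let a₁ : Algebra F₁ M := e₁.toAlgebra
    refine ⟨M, M.toField, M.algebra', a₁, M.algebra', ?_, ?_, hM, γ', h1, ?_⟩
    · exact IsScalarTower.of_algebraMap_eq fun x => Subtype.ext
        (IsScalarTower.algebraMap_apply K (FU r z) L x)
    · exact IsScalarTower.of_algebraMap_eq fun x => Subtype.ext
        (IsScalarTower.algebraMap_apply K F₁ L x)
    · intro τ x
      obtain ⟨σ, h4, h5⟩ := h3 τ
      apply Subtype.ext
      rw [← h5, h4]
      change σ (algebraMap F₁ L x) = algebraMap F₁ L (ρ σ x)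
      rw [hγ, hρ]

end Pool.Agent.R70.IG
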