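import Mathlib
import Pool.Agent.R70.IG.Gen
import Pool.Agent.R70.IG.Local
import Pool.Agent.TH377.IG.RegAll

/-!
# The data of regular towers over `K(t)`
-/

set_option autoImplicit false

namespace Pool.Agent.R70.IG

open Pool.Agent.H391R2 IntermediateField
open Pool.Agent.H391R2.T4 (SymEP symProj EG wrAct actS symMap symMap_surjective)

section

variable {Γ : Type} [Group Γ]

/-- The map of the groups of the embedding problems given by a map of the acting groups. -/
def mapEG {G W : Type} [Group G] [Group W] (φ : Γ →* MulAut G) (π : W →* Γ) (n : ℕ) :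
    EG (φ.comp π) n →* EG φ n where
  toFun z := ⟨z.left, π z.right⟩
  map_one' := by
    apply SemidirectProduct.ext
    · rfl
    · exact map_one π
  map_mul' a b := by
    apply SemidirectProduct.ext
    · rfl
    · exact map_mul π a.right b.right

/-- A group with a homomorphism to `Γ`. -/
structure TW (Γ : Type) [Group Γ] where
  W : Type
  g : Group W
  π : W →* Γ

variable {E : ℕ → Type} [∀ i, Group (E i)] (α : ∀ i, E i →* Γ) (s : ∀ i, Γ →* E i) (n : ℕ → ℕ)

/-- The tower. -/
noncomputable def tw : ℕ → TW Γ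
  | 0 => ⟨Γ, inferInstance, MonoidHom.id Γ⟩
  | i + 1 =>
    let _ := (tw i).g
    ⟨EG ((actS (α i) (s i)).comp (tw i).π) (n i), inferInstance,
      (tw i).π.comp SemidirectProduct.rightHom⟩

/-- The groups of the tower. -/
abbrev tW (i : ℕ) : Type := (tw α s n i).W

noncomputable instance (i : ℕ) : Group (tW α s n i) := (tw α s n i).g

/-- The maps to `Γ`. -/
noncomputable def tπ (i : ℕ) : tW α s n i →* Γ := (tw α s n i).π

/-- The maps of the tower. -/
noncomputable def tp (i : ℕ) : tW α s n (i + 1) →* tW α s n i :=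
  (SemidirectProduct.rightHom : EG ((actS (α i) (s i)).comp (tπ α s n i)) (n i) →* tW α s n i)

theorem tπ_succ (i : ℕ) (x : tW α s n (i + 1)) : tπ α s n (i + 1) x = tπ α s n i (tp α s n i x) :=
  rfl

/-- The next element of the tower. -/
noncomputable def tmk (i : ℕ) (y : Wr (α i).ker (n i)) (x : tW α s n i) : tW α s n (i + 1) :=
  (⟨y, x⟩ : EG ((actS (α i) (s i)).comp (tπ α s n i)) (n i))

/-- The left part. -/
noncomputable def tleft (i : ℕ) (x : tW α s n (i + 1)) : Wr (α i).ker (n i) :=
  (show EG ((actS (α i) (s i)).comp (tπ α s n i)) (n i) from x).left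

/-- The map to the group of the embedding problem. -/
noncomputable def tc (i : ℕ) : tW α s n (i + 1) →* EG (actS (α i) (s i)) (n i) :=
  mapEG (actS (α i) (s i)) (tπ α s n i) (n i)

theorem tc_left (i : ℕ) (x : tW α s n (i + 1)) : (tc α s n i x).left = tleft α s n i x := rfl

theorem tc_right (i : ℕ) (x : tW α s n (i + 1)) :
    (tc α s n i x).right = tπ α s n i (tp α s n i x) := rfl

theorem tW_ext (i : ℕ) (x y : tW α s n (i + 1)) (h1 : tleft α s n i x = tleft α s n i y)
    (h2 : tp α s n i x = tp α s n i y) : x = y :=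
  SemidirectProduct.ext h1 h2

theorem wstep_tp [∀ i, Finite (E i)]
    (hn : ∀ i, ((3 * Nat.card (α i).ker + 2).factorial) ^ 3 ≤ n i) (i : ℕ) :
    Pool.Agent.TH377.IG.WStep (tp α s n i) := by
  refine Or.inl ⟨(α i).ker, inferInstance, inferInstance,
    (actS (α i) (s i)).comp (tπ α s n i), n i, MulEquiv.refl _, hn i, fun x => rfl⟩

open Pool.Agent.TH15.IGP (Lim)

theorem dat_tower {k L : Type} [Field k] [Field L] [Algebra k L]
    (hs : ∀ i ρ, α i (s i ρ) = ρ)
    (γ : (L ≃ₐ[k] L) ≃* Lim (tp α s n))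
    (hi : ∀ i, IsOpen {σ : L ≃ₐ[k] L | (γ σ).1 i = 1}) :
    ∃ (ρ : (L ≃ₐ[k] L) →* Γ) (r : ∀ i, (L ≃ₐ[k] L) →* Wr (E i) (n i)),
      (∀ σ, ρ σ = (γ σ).1 0) ∧ Dat α n ρ r := by
  let cW : ∀ i, (L ≃ₐ[k] L) →* tW α s n i := fun i =>
    (Pi.evalMonoidHom (fun i => tW α s n i) i).comp
      ((Lim (tp α s n)).subtype.comp γ.toMonoidHom)
  let ρ : (L ≃ₐ[k] L) →* Γ := cW 0
  let sm : ∀ i, EG (actS (α i) (s i)) (n i) →* SymEP (α i) (n i) := fun i =>
    symMap (α i) (MonoidHom.id Γ) (s i) (hs i) (n i)
  let c : ∀ i, (L ≃ₐ[k] L) →* SymEP (α i) (n i) := fun i =>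
    (sm i).comp ((tc α s n i).comp (cW (i + 1)))
  let r : ∀ i, (L ≃ₐ[k] L) →* Wr (E i) (n i) := fun i =>
    (MonoidHom.fst (Wr (E i) (n i)) Γ).comp ((SymEP (α i) (n i)).subtype.comp (c i))
  have hp : ∀ σ i, tp α s n i (cW (i + 1) σ) = cW i σ := fun σ i => (γ σ).2 i
  have hπ : ∀ σ i, tπ α s n i (cW i σ) = ρ σ := by
    intro σ i
    induction i with
    | zero => rfl
    | succ i ih => rw [tπ_succ, hp, ih]
  have hc2 : ∀ σ i, ((c i σ : SymEP (α i) (n i)) : Wr (E i) (n i) × Γ).2 = ρ σ := by
    intro σ i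
    change tπ α s n i (tp α s n i (cW (i + 1) σ)) = ρ σ
    rw [hp, hπ]
  refine ⟨ρ, r, fun σ => rfl, ⟨?_, ?_, ?_, hi 0, fun i => ?_⟩⟩
  · intro σ i j
    rw [← hc2 σ i]
    exact (c i σ).2 j
  · intro σ h1 h2
    have h3 : ∀ i, cW i σ = 1 := by
      intro i
      induction i with
      | zero => exact h2
      | succ i ih =>
        apply tW_ext
        · have h4 : r i σ = 1 := h1 i
          apply SemidirectProduct.ext
          · funext j
            apply Subtype.ext
            have h5 : (r i σ).left j = 1 := by rw [h4]; rfl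
            have h6 : (r i σ).left j =
                (((tleft α s n i (cW (i + 1) σ)).left j : (α i).ker) : E i) *
                  s i (tπ α s n i (tp α s n i (cW (i + 1) σ))) := rfl
            rw [h5, hp, ih, map_one, map_one, mul_one] at h6
            rw [← h6]
            rfl
          · have h5 : (r i σ).right = 1 := by rw [h4]; rfl
            exact h5
        · rw [hp, ih, map_one]
    apply γ.injective
    rw [map_one]
    apply Subtype.ext
    funext i
    exact h3 i
  · intro g w hw
    have h1 : ∀ i, ∃ y : EG (actS (α i) (s i)) (n i),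
        sm i y = ⟨(w i, g), fun j => hw i j⟩ := fun i =>
      symMap_surjective (α i) (MonoidHom.id Γ) (s i) (hs i) Function.surjective_id (n i) _
    choose y hy using h1
    have hyr : ∀ i, (y i).right = g := by
      intro i
      have h2 := congrArg (fun v : SymEP (α i) (n i) => (v : Wr (E i) (n i) × Γ).2) (hy i)
      exact h2
    let x : ∀ i, tW α s n i := fun i => Nat.rec (motive := fun i => tW α s n i) g
      (fun i xi => tmk α s n i (y i).left xi) i
    have hx : x ∈ Lim (tp α s n) := fun i => rfl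
    refine ⟨γ.symm ⟨x, hx⟩, ?_, fun i => ?_⟩
    · change (γ (γ.symm ⟨x, hx⟩)).1 0 = g
      rw [MulEquiv.apply_symm_apply]
      rfl
    · have h2 : ∀ i, tπ α s n i (x i) = g := by
        intro i
        induction i with
        | zero => rfl
        | succ i ih => exact ih
      have h3 : c i (γ.symm ⟨x, hx⟩) = sm i (tc α s n i (x (i + 1))) := by
        change sm i (tc α s n i ((γ (γ.symm ⟨x, hx⟩)).1 (i + 1))) = _
        rw [MulEquiv.apply_symm_apply]
      have h4 : tc α s n i (x (i + 1)) = y i := by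
        apply SemidirectProduct.ext
        · rfl
        · rw [hyr]
          exact h2 i
      change (c i (γ.symm ⟨x, hx⟩)).1.1 = w i
      rw [h3, h4, hy]
  · have h1 : (cW (i + 1)).ker ≤ (r i).ker := by
      intro σ hσ
      have h2 : cW (i + 1) σ = 1 := hσ
      change (sm i (tc α s n i (cW (i + 1) σ))).1.1 = 1
      rw [h2, map_one, map_one]
      rfl
    exact Subgroup.isOpen_mono h1 (hi (i + 1))

end

end Pool.Agent.R70.IG
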