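import Mathlib
import Pool.Agent.R70.IG.Tow
import Pool.Agent.R70.IG.EP

/-!
# Regular base change of sparse degree over `K(t)`, for every field `K`
-/

set_option autoImplicit false

namespace Pool.Agent.R70.IG

open Pool.Agent.H391R2 IntermediateField

/-- All split embedding problems for `F₁ / K` (and their countable fibre products) have proper
solutions over `F` with field of constants `F₁`. -/
def SolvesReg (K F₁ F : Type) [Field K] [Field F₁] [Algebra K F₁] [Field F] [Algebra K F] :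
    Prop :=
  ∀ (J : Type) [Countable J] (H : J → Type) [∀ j, Group (H j)] [∀ j, Finite (H j)]
    (π : ∀ j, H j →* (F₁ ≃ₐ[K] F₁)) (s : ∀ j, (F₁ ≃ₐ[K] F₁) →* H j),
    (∀ j ρ, π j (s j ρ) = ρ) →
    ∃ (N : Type) (_ : Field N) (_ : Algebra F N) (_ : Algebra F₁ N) (_ : Algebra K N)
      (_ : IsScalarTower K F N) (_ : IsScalarTower K F₁ N) (_ : IsGalois F N)
      (γ : (N ≃ₐ[F] N) ≃* FP π),
      (∀ j, IsOpen {σ : N ≃ₐ[F] N | (γ σ).1.1 j = 1}) ∧
      (∀ (σ : N ≃ₐ[F] N) (x : F₁), σ (algebraMap F₁ N x) = algebraMap F₁ N ((γ σ).1.2 x)) ∧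
      ∀ y : N, IsAlgebraic F₁ y → y ∈ Set.range (algebraMap F₁ N)

/-- Codes for split embedding problems. -/
structure SC (Γ : Type) [Group Γ] where
  m : ℕ
  S : Subgroup (Equiv.Perm (Fin m))
  π : S →* Γ
  s : Γ →* S
  hs : ∀ ρ, π (s ρ) = ρ

theorem countable_SC (Γ : Type) [Group Γ] [Finite Γ] : Countable (SC Γ) := by
  have h1 : ∀ (m : ℕ) (S : Subgroup (Equiv.Perm (Fin m))), Finite ((S →* Γ) × (Γ →* S)) := by
    intro m S
    have h2 : Finite (S →* Γ) := DFunLike.finite _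
    have h3 : Finite (Γ →* S) := DFunLike.finite _
    infer_instance
  have hinj : Function.Injective (fun c : SC Γ =>
      (⟨c.m, c.S, c.π, c.s⟩ : Σ m : ℕ, Σ S : Subgroup (Equiv.Perm (Fin m)),
        (S →* Γ) × (Γ →* S))) := by
    rintro ⟨m, S, π, s, hs⟩ ⟨m', S', π', s', hs'⟩ h
    simp only [Sigma.mk.injEq] at h
    obtain ⟨rfl, h⟩ := h
    rw [heq_eq_eq, Sigma.mk.injEq] at h
    obtain ⟨rfl, h⟩ := h
    rw [heq_eq_eq, Prod.mk.injEq] at h
    obtain ⟨rfl, rfl⟩ := h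
    rfl
  exact hinj.countable

theorem scode_exists {Γ : Type} [Group Γ] (H : Type) [Group H] [Finite H] (π : H →* Γ)
    (s : Γ →* H) (hs : ∀ ρ, π (s ρ) = ρ) :
    ∃ (c : SC Γ) (θ : c.S ≃* H), ∀ x, π (θ x) = c.π x := by
  obtain ⟨⟨m, S⟩, ⟨θ⟩⟩ := exists_code H
  refine ⟨⟨m, S, π.comp θ.toMonoidHom, θ.symm.toMonoidHom.comp s, fun ρ => ?_⟩, θ,
    fun x => rfl⟩
  change π (θ (θ.symm (s ρ))) = ρ
  rw [MulEquiv.apply_symm_apply, hs]

theorem exists_enum (Γ : Type) [Group Γ] [Finite Γ] : Nonempty (ℕ ≃ SC Γ × ℕ) := by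
  have hcc := countable_SC Γ
  have hne : Nonempty (SC Γ) := by
    obtain ⟨c, -⟩ := scode_exists Γ (MonoidHom.id Γ) (MonoidHom.id Γ) (fun ρ => rfl)
    exact ⟨c⟩
  exact nonempty_equiv_of_countable

theorem exists_idx {Γ : Type} [Group Γ] (e : ℕ ≃ SC Γ × ℕ) (H : Type) [Group H] [Finite H]
    (π : H →* Γ) (s : Γ →* H) (hs : ∀ ρ, π (s ρ) = ρ) (m : ℕ) :
    ∃ (i : ℕ) (θ : (e i).1.S ≃* H), (e i).2 = m ∧ ∀ x, π (θ x) = (e i).1.π x := by
  obtain ⟨c, θ, hθ⟩ := scode_exists H π s hs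
  have h2 : ∀ d : SC Γ × ℕ, d = (c, m) → ∃ (θ : d.1.S ≃* H), d.2 = m ∧
      ∀ x, π (θ x) = d.1.π x := by
    rintro d rfl
    exact ⟨θ, rfl, hθ⟩
  exact ⟨e.symm (c, m), h2 (e (e.symm (c, m))) (e.apply_symm_apply _)⟩

theorem main_Reg (K : Type) [Field K] (F₁ : Type) [Field F₁] [Algebra K F₁]
    [FiniteDimensional K F₁] [IsGalois K F₁] (A : Set ℕ) (hA : A.Infinite) (h0 : 0 ∉ A) :
    ∃ (F : Type) (_ : Field F) (_ : Algebra (RatFunc K) F) (_ : Algebra K F)
      (_ : IsScalarTower K (RatFunc K) F), Algebra.IsSeparable (RatFunc K) F ∧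
      (∀ M : IntermediateField (RatFunc K) F, FiniteDimensional (RatFunc K) M →
        ∃ T : Finset ℕ, (T : Set ℕ) ⊆ A ∧ Module.finrank (RatFunc K) M ∣ ∏ a ∈ T, a) ∧
      (∀ y : F, IsAlgebraic K y → y ∈ Set.range (algebraMap K F)) ∧ SolvesReg K F₁ F := by
  classical
  have hfΓ : Finite (F₁ ≃ₐ[K] F₁) := inferInstance
  obtain ⟨e⟩ := exists_enum (F₁ ≃ₐ[K] F₁)
  let E : ℕ → Type := fun i => (e i).1.S
  let gE : ∀ i, Group (E i) := fun i => inferInstanceAs (Group (e i).1.S)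
  have fE : ∀ i, Finite (E i) := fun i => inferInstanceAs (Finite (e i).1.S)
  let α : ∀ i, E i →* (F₁ ≃ₐ[K] F₁) := fun i => (e i).1.π
  let s : ∀ i, (F₁ ≃ₐ[K] F₁) →* E i := fun i => (e i).1.s
  have hs : ∀ i ρ, α i (s i ρ) = ρ := fun i => (e i).1.hs
  have hα : ∀ i, Function.Surjective (α i) := fun i ρ => ⟨s i ρ, hs i ρ⟩
  obtain ⟨n, hn, hnA⟩ := exists_degrees A hA ℕ
    (fun i => ((3 * Nat.card (α i).ker + 2).factorial) ^ 3)
  obtain ⟨L, i1, i2, i3, i4, i5, i6, i7, γ, hγo, hγ, hreg⟩ :=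
    Pool.Agent.TH377.IG.tower_regular_all K F₁ (tW α s n) (tp α s n)
      (wstep_tp α s n (fun i => (hnA i).2)) (MulEquiv.refl _)
  obtain ⟨ρ, r, hρ, hD⟩ := dat_tower α s n hs γ hγo
  have hpos : ∀ i, 0 < n i := fun i => Nat.pos_of_ne_zero fun h => h0 (h ▸ (hnA i).1)
  let z : ∀ i, Fin (n i) := fun i => ⟨0, hpos i⟩
  have hγ' : ∀ (σ : L ≃ₐ[RatFunc K] L) (x : F₁),
      σ (algebraMap F₁ L x) = algebraMap F₁ L (ρ σ x) := by
    intro σ x
    rw [hρ]
    exact hγ σ x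
  refine ⟨FU r z, (FU r z).toField, (FU r z).algebra', (FU r z).algebra', ?_, ?_, ?_, ?_, ?_⟩
  · exact IsScalarTower.of_algebraMap_eq fun x => Subtype.ext
      (IsScalarTower.algebraMap_apply K (RatFunc K) L x)
  · exact Algebra.isSeparable_tower_bot_of_isSeparable (RatFunc K) (FU r z) L
  · intro M hM
    obtain ⟨T, hT⟩ := degree_gen z hD hα M
    refine ⟨T.image n, ?_, ?_⟩
    · intro a ha
      rw [Finset.coe_image] at ha
      obtain ⟨i, -, rfl⟩ := ha
      exact (hnA i).1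
    · rw [Finset.prod_image (fun i _ j _ h => hn h)]
      exact hT
  · intro y hy
    have htow : IsScalarTower K (FU r z) L := IsScalarTower.of_algebraMap_eq fun x => rfl
    have h1 : IsAlgebraic K (y : L) := hy.algebraMap
    have h2 : IsAlgebraic F₁ (y : L) := h1.tower_top F₁
    obtain ⟨x, hx⟩ := hreg _ h2
    have h3 : x ∈ Set.range (algebraMap K F₁) := by
      rw [InfiniteGalois.mem_range_algebraMap_iff_fixed]
      intro g
      choose w hw using fun i => hα i g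
      obtain ⟨σ, hσ1, hσ2⟩ := hD.surj g (fun i => ⟨fun _ => w i, 1⟩) (fun i j => hw i)
      have hσ : σ ∈ UU r z := by
        rw [mem_UU]
        intro i
        rw [hσ2]
        rfl
      have h4 : σ (y : L) = y := (mem_fixedField_iff _ _).1 y.2 σ hσ
      rw [← hx, hγ', hσ1] at h4
      exact (algebraMap F₁ L).injective h4
    obtain ⟨a, rfl⟩ := h3
    refine ⟨a, ?_⟩
    apply Subtype.ext
    rw [← hx]
    exact IsScalarTower.algebraMap_apply K F₁ L a
  · intro J _ H _ _ π t ht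
    obtain ⟨f, hf⟩ := exists_injective_nat J
    have h1 : ∀ j, ∃ (i : ℕ) (θ : E i ≃* H j), (e i).2 = f j ∧ ∀ x, π j (θ x) = α i x :=
      fun j => exists_idx e (H j) (π j) (t j) (ht j) (f j)
    choose idx θ hidx hθ using h1
    have hinj : Function.Injective idx := fun a b h => hf (by rw [← hidx a, ← hidx b, h])
    have hπ : ∀ j, Function.Surjective (π j) := fun j ρ => ⟨t j ρ, ht j ρ⟩
    obtain ⟨M, hM, γ', h1, h2, h3⟩ := sol_gen z hD hα idx hinj π θ hθ
    have hmem : ∀ x : F₁, algebraMap F₁ L x ∈ M := by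
      intro x
      refine h2 _ fun σ hσ => ?_
      rw [hγ', hσ]
      rfl
    let e₁ : F₁ →+* M := (algebraMap F₁ L).codRestrict M hmem
    let a₁ : Algebra F₁ M := e₁.toAlgebra
    let a₂ : Algebra K M := ((algebraMap (FU r z) M).comp (algebraMap K (FU r z))).toAlgebra
    have htow : IsScalarTower F₁ M L := IsScalarTower.of_algebraMap_eq fun x => rfl
    refine ⟨M, M.toField, M.algebra', a₁, a₂, ?_, ?_, hM, γ', h1, ?_, ?_⟩
    · exact IsScalarTower.of_algebraMap_eq fun x => rfl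
    · refine IsScalarTower.of_algebraMap_eq fun x => Subtype.ext ?_
      exact IsScalarTower.algebraMap_apply K F₁ L x
    · intro τ x
      obtain ⟨σ, h4, h5⟩ := h3 τ
      apply Subtype.ext
      rw [← h5, h4]
      change σ (algebraMap F₁ L x) = algebraMap F₁ L (ρ σ x)
      rw [hγ']
    · intro y hy
      have h4 : IsAlgebraic F₁ (y : L) := hy.algebraMap
      obtain ⟨x, hx⟩ := hreg _ h4
      exact ⟨x, Subtype.ext hx⟩

end Pool.Agent.R70.IG
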