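import Mathlib
import Pool.Agent.R70.IG.RegMain

/-!
# Every finite group over regular extensions of `κ(X)` of degree `p^∞`
-/

set_option autoImplicit false

namespace Pool.Agent.R70.IG

/-- The fibre product over a trivial group. -/
def fpTriv {Γ J : Type} [Group Γ] [Subsingleton Γ] {H : J → Type} [∀ j, Group (H j)]
    (π : ∀ j, H j →* Γ) : FP π ≃* ∀ j, H j where
  toFun x := x.1.1
  invFun h := ⟨(h, 1), fun _ => Subsingleton.elim _ _⟩
  left_inv x := by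
    apply Subtype.ext
    exact Prod.ext rfl (Subsingleton.elim _ _)
  right_inv _ := rfl
  map_mul' _ _ := rfl

theorem main_fin (κ : Type) [Field κ] (A : Set ℕ) (hA : A.Infinite) (h0 : 0 ∉ A) :
    ∃ (F : Type) (_ : Field F) (_ : Algebra (RatFunc κ) F) (_ : Algebra κ F)
      (_ : IsScalarTower κ (RatFunc κ) F), Algebra.IsSeparable (RatFunc κ) F ∧
      (∀ M : IntermediateField (RatFunc κ) F, FiniteDimensional (RatFunc κ) M →
        ∃ T : Finset ℕ, (T : Set ℕ) ⊆ A ∧ Module.finrank (RatFunc κ) M ∣ ∏ a ∈ T, a) ∧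
      (∀ y : F, IsAlgebraic κ y → y ∈ Set.range (algebraMap κ F)) ∧
      ∀ (H : ℕ → Type) [∀ j, Group (H j)] [∀ j, Finite (H j)],
        ∃ (N : Type) (_ : Field N) (_ : Algebra F N) (_ : Algebra κ N)
          (_ : IsScalarTower κ F N), IsGalois F N ∧ Nonempty ((N ≃ₐ[F] N) ≃* ∀ j, H j) ∧
          ∀ y : N, IsAlgebraic κ y → y ∈ Set.range (algebraMap κ N) := by
  obtain ⟨F, i1, i2, i3, i4, h1, h2, h3, h4⟩ := main_Reg κ κ A hA h0
  refine ⟨F, i1, i2, i3, i4, h1, h2, h3, fun H _ _ => ?_⟩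
  have hsub : Subsingleton (κ ≃ₐ[κ] κ) := ⟨fun a b => Subsingleton.elim a b⟩
  obtain ⟨N, j1, j2, j3, j4, j5, j6, j7, γ, -, -, h5⟩ := h4 ℕ H (fun _ => 1) (fun _ => 1)
    (fun _ _ => Subsingleton.elim _ _)
  have h34 : j4 = j3 := Algebra.algebra_ext j4 j3 (fun x =>
    @IsScalarTower.algebraMap_apply κ κ N _ _ _ _ j3 j4 j6 x)
  subst h34
  exact ⟨N, j1, j2, j4, j5, j7, ⟨γ.trans (fpTriv _)⟩, h5⟩

end Pool.Agent.R70.IG
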